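import Pool.Agent.Helper36.JJ.Defs
import Pool.Agent.Helper16.Pin.RankD
import Pool.Agent.Helper33.JJ.Circuits
import Pool.Agent.Helper33.JJ.GoodSets

/-!
# JJ-6: existence of a vertex, first case
-/

namespace Pool.Agent.Helper36.JJ

open Finset Module
open Pool.Agent.Helper36.Pin

variable {V : Type} [Fintype V] [DecidableEq V]

private theorem cb1_mem_inter {e : Sym2 V} {X Y : Finset V} (h1 : e ∈ X.sym2) (h2 : e ∈ Y.sym2) :
    e ∈ (X ∩ Y).sym2 := by
  induction e using Sym2.ind with
  | _ u v =>
    rw [mk_mem_sym2] at h1 h2 ⊢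
    exact ⟨mem_inter.2 ⟨h1.1, h2.1⟩, mem_inter.2 ⟨h1.2, h2.2⟩⟩

private theorem cb1_card (U : Finset V) (e : Sym2 V) :
    (U.filter (fun u => u ∈ e)).card ≤ 1 + (if e ∈ U.sym2 then 1 else 0) := by
  induction e using Sym2.ind with
  | _ a b =>
    by_cases h : s(a, b) ∈ U.sym2
    · rw [if_pos h]
      have h1 : U.filter (fun u => u ∈ s(a, b)) ⊆ {a, b} := by
        intro u hu
        rw [mem_filter, Sym2.mem_iff] at hu
        simpa using hu.2
      exact (card_le_card h1).trans card_le_two
    · rw [if_neg h, add_zero]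
      rw [mk_mem_sym2, not_and_or] at h
      rcases h with h | h
      · have h1 : U.filter (fun u => u ∈ s(a, b)) ⊆ {b} := by
          intro u hu
          rw [mem_filter, Sym2.mem_iff] at hu
          rcases hu.2 with rfl | rfl
          · exact absurd hu.1 h
          · simp
        exact (card_le_card h1).trans (card_singleton b).le
      · have h1 : U.filter (fun u => u ∈ s(a, b)) ⊆ {a} := by
          intro u hu
          rw [mem_filter, Sym2.mem_iff] at hu
          rcases hu.2 with rfl | rfl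
          · simp
          · exact absurd hu.1 h
        exact (card_le_card h1).trans (card_singleton a).le

private theorem cb1_double (U : Finset V) (D : Finset (Sym2 V)) :
    ∑ u ∈ U, (D.filter (fun e => u ∈ e)).card ≤ D.card + (D ∩ U.sym2).card := by
  have h1 : ∑ u ∈ U, (D.filter (fun e => u ∈ e)).card
      = ∑ e ∈ D, (U.filter (fun u => u ∈ e)).card :=
    sum_card_bipartiteAbove_eq_sum_card_bipartiteBelow (fun u e => u ∈ e)
  rw [h1]
  refine (sum_le_sum fun e _ => cb1_card U e).trans ?_
  rw [sum_add_distrib, sum_const, smul_eq_mul, mul_one, ← card_filter, filter_mem_eq_inter]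

theorem caseB1 (G : SimpleGraph V) (X Y : Finset V) (hX : Good (edges G ∩ X.sym2) X)
    (hYX : Y ⊆ X) (hne : Y ≠ X) (hY : Good (edges G ∩ Y.sym2) Y)
    (hmax : ∀ Y', Y ⊆ Y' → Y' ⊆ X → Y' ≠ X → Good (edges G ∩ Y'.sym2) Y' → Y' = Y)
    (C : Finset (Sym2 V)) (hC : Circ C) (hCG : C ⊆ edges G ∩ X.sym2)
    (h1 : (C ∩ Y.sym2).Nonempty) (h2 : ¬ C ⊆ Y.sym2) :
    ∃ v ∈ X, rk (edges G ∩ (X.erase v).sym2) + 3 = 2 * (X.erase v).card := by
  classical
  -- a crossing circuit with the smallest number of elements outside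
  obtain ⟨C, hC, hCG, h1, h2, hmin⟩ : ∃ C : Finset (Sym2 V), Circ C ∧ C ⊆ edges G ∩ X.sym2 ∧
      (C ∩ Y.sym2).Nonempty ∧ ¬ C ⊆ Y.sym2 ∧
      ∀ C' : Finset (Sym2 V), Circ C' → C' ⊆ edges G ∩ X.sym2 → (C' ∩ Y.sym2).Nonempty →
        ¬ C' ⊆ Y.sym2 → (C \ Y.sym2).card ≤ (C' \ Y.sym2).card := by
    obtain ⟨C₀, hC₀, hmin⟩ := exists_min_image
      ((edges G ∩ X.sym2).powerset.filter
        (fun C => Circ C ∧ (C ∩ Y.sym2).Nonempty ∧ ¬ C ⊆ Y.sym2))
      (fun C => (C \ Y.sym2).card)
      ⟨C, by simp only [mem_filter, mem_powerset]; exact ⟨hCG, hC, h1, h2⟩⟩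
    simp only [mem_filter, mem_powerset] at hC₀ hmin
    exact ⟨C₀, hC₀.2.1, hC₀.1, hC₀.2.2.1, hC₀.2.2.2,
      fun C' a b c d => hmin C' ⟨b, a, c, d⟩⟩
  set F := edges G ∩ Y.sym2 with hF
  obtain ⟨YC, hYC, -⟩ := circ_exists_good hC
  obtain ⟨e₀, he₀⟩ := h1
  rw [mem_inter] at he₀
  have hint : 2 ≤ (Y ∩ YC).card :=
    ModF.two_le_of_mem_sym2 (hC.1 e₀ he₀.1) (cb1_mem_inter he₀.2 (hYC.sub he₀.1))
  have hU := hY.union hYC hint
  -- the vertex set of the circuit is contained in `X`
  have hYCX : YC ⊆ X := by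
    intro w hw
    by_contra hwX
    have hsub : C ⊆ (YC.erase w).sym2 := by
      intro e he
      have a1 := hYC.sub he
      have a2 := (mem_inter.1 (hCG he)).2
      induction e using Sym2.ind with
      | _ u v =>
        rw [mk_mem_sym2] at a1 a2 ⊢
        refine ⟨mem_erase.2 ⟨?_, a1.1⟩, mem_erase.2 ⟨?_, a1.2⟩⟩
        · rintro rfl; exact hwX a2.1
        · rintro rfl; exact hwX a2.2
    have hcard : (YC.erase w).card + 1 = YC.card := card_erase_add_one hw
    have hrig := hYC.rigid
    have htwo := hYC.two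
    by_cases h3 : 2 ≤ (YC.erase w).card
    · have := rk_inside_le C _ h3 hsub
      omega
    · have := rk_inside_small C (YC.erase w) (by omega) hsub
      omega
  have hsubYC : F ∪ C ⊆ edges G ∩ (Y ∪ YC).sym2 := by
    intro e he
    rw [mem_union] at he
    rw [mem_inter]
    rcases he with he | he
    · rw [hF, mem_inter] at he
      exact ⟨he.1, sym2_mono subset_union_left he.2⟩
    · exact ⟨(mem_inter.1 (hCG he)).1, sym2_mono subset_union_right (hYC.sub he)⟩
  have hU2 : Good (edges G ∩ (Y ∪ YC).sym2) (Y ∪ YC) := hU.add hsubYC inter_subset_right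
  have hXeq : Y ∪ YC = X := by
    by_contra hX'
    have h3 := hmax _ subset_union_left (union_subset hYX hYCX) hX' hU2
    have h4 : YC ⊆ Y := by
      rw [← h3]; exact subset_union_right
    exact h2 (hYC.sub.trans (sym2_mono h4))
  rw [hXeq] at hU
  -- the number of elements outside
  set D := C \ Y.sym2 with hD
  set U := X \ Y with hUdef
  have hcardU : U.card + Y.card = X.card := card_sdiff_add_card_eq_card hYX
  have hUpos : 1 ≤ U.card := by
    rw [hUdef, Nat.one_le_iff_ne_zero, Ne, card_eq_zero, sdiff_eq_empty_iff_subset]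
    exact fun h => hne (subset_antisymm hYX h)
  obtain ⟨f, hf⟩ : D.Nonempty := by
    rw [nonempty_iff_ne_empty, Ne, hD, sdiff_eq_empty_iff_subset]
    exact h2
  obtain ⟨B, hBF, hBs, hBc⟩ := ModE.exists_sparse F
  have hFY : F ⊆ Y.sym2 := inter_subset_right
  have hFX : F ⊆ edges G ∩ X.sym2 := by
    intro e he
    rw [hF, mem_inter] at he
    exact mem_inter.2 ⟨he.1, sym2_mono hYX he.2⟩
  have hDC : D ⊆ C := sdiff_subset
  have hsp : Sparse (B ∪ D.erase f) := by
    by_contra hns
    have hd : ∀ e ∈ B ∪ D.erase f, ¬ e.IsDiag := by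
      intro e he
      rw [mem_union] at he
      rcases he with he | he
      · exact hBs.1 e he
      · exact hC.1 e (hDC (mem_of_mem_erase he))
    obtain ⟨C', hC'sub, hC'⟩ := exists_circ hd hns
    have hDout : ∀ e ∈ D, e ∉ Y.sym2 := fun e he => (mem_sdiff.1 he).2
    by_cases hcr : (C' ∩ Y.sym2).Nonempty
    · by_cases hin : C' ⊆ Y.sym2
      · have h5 : C' ⊆ B := by
          intro e he
          rcases mem_union.1 (hC'sub he) with h | h
          · exact h
          · exact absurd (hin he) (hDout e (mem_of_mem_erase h))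
        exact hC'.2.1 (ModE.Sparse.subset hBs h5)
      · have h5 : C' ⊆ edges G ∩ X.sym2 := by
          intro e he
          rcases mem_union.1 (hC'sub he) with h | h
          · exact hFX (hBF h)
          · exact hCG (hDC (mem_of_mem_erase h))
        have h6 := hmin C' hC' h5 hcr hin
        have h7 : C' \ Y.sym2 ⊆ D.erase f := by
          intro e he
          rw [mem_sdiff] at he
          rcases mem_union.1 (hC'sub he.1) with h | h
          · exact absurd (hFY (hBF h)) he.2
          · exact h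
        have h8 := card_le_card h7
        have h9 := card_erase_lt_of_mem hf
        omega
    · have h5 : C' ⊆ C.erase f := by
        intro e he
        rcases mem_union.1 (hC'sub he) with h | h
        · exact absurd ⟨e, mem_inter.2 ⟨he, hFY (hBF h)⟩⟩ hcr
        · rw [mem_erase] at h ⊢
          exact ⟨h.1, hDC h.2⟩
      exact hC'.2.1 (ModE.Sparse.subset (hC.2.2 f (hDC hf)) h5)
  have hdisj : Disjoint B (D.erase f) := by
    rw [disjoint_left]
    intro e he he'
    exact (mem_sdiff.1 (mem_of_mem_erase he')).2 (hFY (hBF he))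
  have hcardD : D.card ≤ 2 * U.card + 1 := by
    have h5 : B ∪ D.erase f ⊆ F ∪ C :=
      union_subset_union hBF ((erase_subset _ _).trans hDC)
    have h6 := ModE.card_le_rk h5 hsp
    rw [card_union_of_disjoint hdisj] at h6
    have h7 : (D.erase f).card + 1 = D.card := card_erase_add_one hf
    have h8 := hU.rigid
    have h9 := hY.rigid
    omega
  -- the edges inside `U`
  have hD1 : (D ∩ U.sym2).card + 2 ≤ 2 * U.card := by
    have hsp1 : Sparse (D ∩ U.sym2) := by
      refine ModE.Sparse.subset (hC.2.2 e₀ he₀.1) fun e he => ?_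
      have he1 := (mem_inter.1 he).1
      refine mem_erase.2 ⟨?_, hDC he1⟩
      rintro rfl
      exact (mem_sdiff.1 he1).2 he₀.2
    by_cases hU2' : 2 ≤ U.card
    · have h5 := hsp1.2 U hU2'
      rw [inter_assoc, inter_self] at h5
      omega
    · have h5 : D ∩ U.sym2 = ∅ := by
        rw [eq_empty_iff_forall_notMem]
        intro e he
        have := ModF.two_le_of_mem_sym2 (hsp1.1 e he) (mem_inter.1 he).2
        omega
      rw [h5, card_empty]
      omega
  obtain ⟨u, hu, hdeg⟩ : ∃ u ∈ U, (D.filter (fun e => u ∈ e)).card ≤ 3 := by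
    by_contra hcon
    push Not at hcon
    have h5 := cb1_double U D
    have h6 : ∑ _u ∈ U, 4 ≤ ∑ u ∈ U, (D.filter (fun e => u ∈ e)).card :=
      sum_le_sum fun u hu => hcon u hu
    rw [sum_const, smul_eq_mul] at h6
    omega
  rw [hUdef, mem_sdiff] at hu
  have hdeg' : ((F ∪ C).filter (fun e => u ∈ e)).card ≤ 3 := by
    refine (card_le_card ?_).trans hdeg
    intro e he
    rw [mem_filter, mem_union] at he
    have hnY : e ∉ Y.sym2 := by
      intro h
      exact hu.2 (mem_sym2_iff.1 h u he.2)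
    rw [mem_filter, hD, mem_sdiff]
    rcases he.1 with h | h
    · exact absurd (hFY h) hnY
    · exact ⟨⟨h, hnY⟩, he.2⟩
  have hYtwo := hY.two
  have hfin := hU.erase_of_deg hu.1 (by omega) hdeg'
  refine ⟨u, hu.1, ?_⟩
  have hmono : rk ((F ∪ C) ∩ (X.erase u).sym2) ≤ rk (edges G ∩ (X.erase u).sym2) := by
    refine rk_mono (inter_subset_inter_right ?_)
    exact union_subset inter_subset_left (hCG.trans inter_subset_left)
  have hcX : (X.erase u).card + 1 = X.card := card_erase_add_one hu.1
  have hup := rk_inside_le (edges G ∩ (X.erase u).sym2) (X.erase u) (by omega) inter_subset_right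
  omega

end Pool.Agent.Helper36.JJ
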