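import Pool.Agent.Helper36.JJ.Defs
import Pool.Agent.Helper16.Pin.RankD
import Pool.Agent.Helper37.Pin.ModI

/-!
# JJ-8: a rigid extension with a coloop
-/

namespace Pool.Agent.Helper36.JJ

open Finset Module
open Pool.Agent.Helper36.Pin

variable {V : Type} [Fintype V] [DecidableEq V]

theorem exists_coloop_ext (G : SimpleGraph V) (h4 : 4 ≤ Fintype.card V)
    (h : ¬ RedRigid G Finset.univ) : ∃ G' : SimpleGraph V, G ≤ G' ∧ ∃ e ∈ edges G',
      rk ((edges G').erase e) + 4 = 2 * Fintype.card V ∧
      rk (edges G') + 3 = 2 * Fintype.card V := by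
  classical
  have huniv : ∀ G' : SimpleGraph V, edges G' ∩ (Finset.univ : Finset V).sym2 = edges G' := by
    intro G'
    rw [sym2_univ, inter_univ]
  unfold RedRigid at h
  rw [huniv, card_univ] at h
  have hup : ∀ F : Finset (Sym2 V), rk F + 3 ≤ 2 * Fintype.card V := by
    intro F
    have h5 := rk_inside_le F Finset.univ (by rw [card_univ]; omega) (by rw [sym2_univ]; exact subset_univ _)
    rwa [card_univ] at h5
  by_cases h1 : rk (edges G) + 3 = 2 * Fintype.card V
  · have h2 : ∃ e ∈ edges G, rk ((edges G).erase e) + 3 ≠ 2 * Fintype.card V := by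
      by_contra hcon
      push Not at hcon
      exact h ⟨h1, hcon⟩
    obtain ⟨e, he, hne⟩ := h2
    refine ⟨G, le_rfl, e, he, ?_, h1⟩
    have h3 := rk_insert_le ((edges G).erase e) e
    rw [insert_erase he] at h3
    have h5 := hup ((edges G).erase e)
    omega
  · have h0 := hup (edges G)
    obtain ⟨E', hE', hmax⟩ := exists_max_image
      ((Finset.univ : Finset (Finset (Sym2 V))).filter
        (fun E' => (∀ e ∈ E', ¬ e.IsDiag) ∧ edges G ⊆ E' ∧ rk E' + 4 ≤ 2 * Fintype.card V))
      Finset.card ⟨edges G, by
        rw [mem_filter]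
        refine ⟨mem_univ _, fun e he => ?_, subset_rfl, by omega⟩
        exact G.not_isDiag_of_mem_edgeSet (mem_edges.1 he)⟩
    rw [mem_filter] at hE'
    obtain ⟨-, hdiag, hsub, hrk⟩ := hE'
    -- a pair which is not in `E'`
    have hex : ∃ e ∈ edges (⊤ : SimpleGraph V), e ∉ E' := by
      by_contra hcon
      push Not at hcon
      have h5 := ModI.rk_clique (⊤ : SimpleGraph V) (Fintype.card V) Finset.univ card_univ
        (by omega) (fun u _ v _ huv => by simpa using huv)
      rw [huniv] at h5
      have h6 := rk_mono (show edges (⊤ : SimpleGraph V) ⊆ E' from hcon)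
      omega
    obtain ⟨e, heT, heE⟩ := hex
    have hed : ¬ e.IsDiag := (⊤ : SimpleGraph V).not_isDiag_of_mem_edgeSet (mem_edges.1 heT)
    have hdiag' : ∀ f ∈ insert e E', ¬ f.IsDiag := by
      intro f hf
      rcases mem_insert.1 hf with rfl | hf
      · exact hed
      · exact hdiag f hf
    have h5 : ¬ rk (insert e E') + 4 ≤ 2 * Fintype.card V := by
      intro hle
      have h6 := hmax (insert e E') (by
        rw [mem_filter]
        exact ⟨mem_univ _, hdiag', hsub.trans (subset_insert _ _), hle⟩)
      rw [card_insert_of_notMem heE] at h6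
      omega
    have h6 := rk_insert_le E' e
    have h7 := hup (insert e E')
    set G' : SimpleGraph V := SimpleGraph.fromEdgeSet ((insert e E' : Finset (Sym2 V)) : Set (Sym2 V))
      with hG'
    have hedges : edges G' = insert e E' := by
      ext f
      rw [mem_edges, hG', SimpleGraph.edgeSet_fromEdgeSet]
      constructor
      · intro hf
        exact mem_coe.1 hf.1
      · intro hf
        exact ⟨mem_coe.2 hf, hdiag' f hf⟩
    refine ⟨G', ?_, e, ?_, ?_, ?_⟩
    · rw [← SimpleGraph.edgeSet_subset_edgeSet]
      intro f hf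
      rw [← mem_edges, hedges]
      exact mem_insert_of_mem (hsub (mem_edges.2 hf))
    · rw [hedges]; exact mem_insert_self _ _
    · rw [hedges, erase_insert heE]; omega
    · rw [hedges]; omega

end Pool.Agent.Helper36.JJ
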