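import Pool.Agent.Helper36.JJ.Defs
import Pool.Agent.Helper16.Pin.RankD
import Pool.Agent.Helper37.Pin.ModI
import Pool.Agent.Helper33.JJ.Circuits

/-!
# JJ-5: coloops after the deletion of a vertex
-/

namespace Pool.Agent.Helper36.JJ

open Finset Module
open Pool.Agent.Helper36.Pin

variable {V : Type} [Fintype V] [DecidableEq V]

theorem coloop_inside {G : SimpleGraph V} {X : Finset V} (hred : RedRigid G X) {v : V}
    (hv : v ∈ X) (h3 : 3 ≤ (nb G X v).card)
    (hcl : ∀ a ∈ nb G X v, ∀ b ∈ nb G X v, a ≠ b → G.Adj a b)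
    (hr : rk (edges G ∩ (X.erase v).sym2) + 3 = 2 * (X.erase v).card) {e : Sym2 V}
    (he : e ∈ edges G ∩ (X.erase v).sym2)
    (hlt : rk ((edges G ∩ (X.erase v).sym2).erase e) < rk (edges G ∩ (X.erase v).sym2)) :
    (nb G X v).card = 3 ∧ e ∈ (nb G X v).sym2 := by
  classical
  set N := nb G X v with hN
  set H := edges G ∩ (X.erase v).sym2 with hH
  have hvN : v ∉ N := by
    rw [hN, mem_nb]
    exact fun h => h.2.ne rfl
  have hNX : N ⊆ X.erase v := by
    intro w hw
    rw [mem_erase]
    refine ⟨?_, (mem_nb.1 hw).1⟩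
    rintro rfl
    exact hvN hw
  have hcX : (X.erase v).card + 1 = X.card := card_erase_add_one hv
  have hemem : e ∈ N.sym2 := by
    by_contra heN
    have hEE : e ∈ edges G ∩ X.sym2 :=
      mem_inter.2 ⟨(mem_inter.1 he).1, sym2_mono (erase_subset _ _) (mem_inter.1 he).2⟩
    have h5 := hred.2 e hEE
    have hsub : (edges G ∩ X.sym2).erase e ⊆ H.erase e ∪ (edges G ∩ (insert v N).sym2) := by
      intro f hf
      rw [mem_erase, mem_inter] at hf
      obtain ⟨hfe, hfG, hfX⟩ := hf
      rw [mem_union]
      induction f using Sym2.ind with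
      | _ a b =>
        rw [mk_mem_sym2] at hfX
        have hab : G.Adj a b := mem_edges_mk.1 hfG
        by_cases ha : a = v
        · subst ha
          right
          rw [mem_inter, mk_mem_sym2]
          exact ⟨hfG, mem_insert_self _ _, mem_insert_of_mem (mem_nb.2 ⟨hfX.2, hab⟩)⟩
        · by_cases hb : b = v
          · subst hb
            right
            rw [mem_inter, mk_mem_sym2]
            exact ⟨hfG, mem_insert_of_mem (mem_nb.2 ⟨hfX.1, hab.symm⟩), mem_insert_self _ _⟩
          · left
            rw [mem_erase, hH, mem_inter, mk_mem_sym2]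
            exact ⟨hfe, hfG, mem_erase.2 ⟨ha, hfX.1⟩, mem_erase.2 ⟨hb, hfX.2⟩⟩
    have h6 := rk_mono hsub
    have h7 := rk_submod (H.erase e) (edges G ∩ (insert v N).sym2)
    have h8 : rk (edges G ∩ N.sym2) ≤ rk (H.erase e ∩ (edges G ∩ (insert v N).sym2)) := by
      refine rk_mono fun f hf => ?_
      rw [mem_inter] at hf
      rw [mem_inter, mem_erase, hH, mem_inter, mem_inter]
      refine ⟨⟨?_, hf.1, sym2_mono hNX hf.2⟩, hf.1, sym2_mono (subset_insert _ _) hf.2⟩
      rintro rfl
      exact heN hf.2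
    have h9 := ModI.rk_clique G N.card N rfl (by omega) hcl
    have hci : (insert v N).card = N.card + 1 := card_insert_of_notMem hvN
    have h10 := rk_inside_le (edges G ∩ (insert v N).sym2) (insert v N) (by omega)
      inter_subset_right
    omega
  refine ⟨?_, hemem⟩
  by_contra hne
  have hc4 : 4 ≤ N.card := by omega
  have h5 := ModI.rk_clique_erase G N hc4 hcl e
  have h6 := rk_inside_le (edges G ∩ N.sym2) N (by omega) inter_subset_right
  have h7 : insert e ((edges G).erase e ∩ N.sym2) = edges G ∩ N.sym2 := by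
    ext f
    rw [mem_insert, mem_inter, mem_inter, mem_erase]
    constructor
    · rintro (rfl | h)
      · exact ⟨(mem_inter.1 he).1, hemem⟩
      · exact ⟨h.1.2, h.2⟩
    · intro h
      by_cases hf : f = e
      · exact Or.inl hf
      · exact Or.inr ⟨⟨hf, h.1⟩, h.2⟩
  have h8 : rk (insert e ((edges G).erase e ∩ N.sym2)) = rk ((edges G).erase e ∩ N.sym2) := by
    apply le_antisymm
    · rw [h7]
      omega
    · exact rk_mono (subset_insert _ _)
  have h9 : (edges G).erase e ∩ N.sym2 ⊆ H.erase e := by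
    intro f hf
    rw [mem_inter, mem_erase] at hf
    rw [mem_erase, hH, mem_inter]
    exact ⟨hf.1.1, hf.1.2, sym2_mono hNX hf.2⟩
  have h10 := rk_insert_mono h9 h8
  rw [insert_erase he] at h10
  omega

end Pool.Agent.Helper36.JJ
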